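import Pool.Agent.Helper9.CG.Algebra
import Pool.Agent.Helper7.CG.Count

/-! CG-C: how one step changes the value of another element. -/

set_option autoImplicit false

namespace Pool.Agent.Helper75.CG

open scoped Classical
open Finset
open Pool.Agent.Helper65.CliqueGame

section CrossAux

variable {V : Type} [Fintype V]

private theorem cr_nonneg {φ : Finset V → ℝ} (h0 : ∀ A, 0 ≤ φ A) (S : Finset V) :
    0 ≤ mass φ S := Finset.sum_nonneg fun A _ => h0 A

private theorem cr_RR (SS : Finset (Finset V)) (φ cap : Finset V → ℝ) (κ : Finset V) :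
    RR SS φ cap κ = ∑ S ∈ SS, if κ ⊆ S then 0 else mass φ (S ∪ κ) ^ 2 / cap S := by
  unfold RR
  rw [Finset.sum_filter]
  refine Finset.sum_congr rfl fun S _ => ?_
  by_cases h : κ ⊆ S
  · rw [if_pos h, if_neg (not_not.2 h)]
  · rw [if_neg h, if_pos h]

/-- the mixed term -/
private theorem cr_sum {K : ℝ} {SS : Finset (Finset V)} {φ cap : Finset V → ℝ}
    (hG : Good K SS φ cap) (κ κ' : Finset V) :
    ∑ S ∈ SS, (if κ ⊆ S then 0 else mass φ (S ∪ κ) / cap S * mass φ (S ∪ κ')) ≤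
      K * mass φ (κ ∪ κ') + (RR SS φ cap κ + RR SS φ cap κ') / 2 := by
  have h1 := load_sum hG (κ ∪ κ')
  have h2 : ∑ S ∈ SS, (if κ ⊆ S then 0 else mass φ (S ∪ κ) / cap S * mass φ (S ∪ κ')) ≤
      ∑ S ∈ SS, (rat φ cap S * mass φ (S ∪ (κ ∪ κ')) +
        ((if κ ⊆ S then 0 else mass φ (S ∪ κ) ^ 2 / cap S) +
          (if κ' ⊆ S then 0 else mass φ (S ∪ κ') ^ 2 / cap S)) / 2) := by
    refine Finset.sum_le_sum fun S _ => ?_
    have hc := hG.pos S
    have n1 := cr_nonneg hG.nonneg S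
    have n2 := cr_nonneg hG.nonneg (S ∪ κ)
    have n3 := cr_nonneg hG.nonneg (S ∪ κ')
    have n4 := cr_nonneg hG.nonneg (S ∪ (κ ∪ κ'))
    have r0 : 0 ≤ rat φ cap S := div_nonneg n1 hc.le
    by_cases h : κ ⊆ S
    · rw [if_pos h, if_pos h]
      have : 0 ≤ (if κ' ⊆ S then 0 else mass φ (S ∪ κ') ^ 2 / cap S) := by
        split_ifs
        · exact le_rfl
        · positivity
      have := mul_nonneg r0 n4
      linarith
    · rw [if_neg h, if_neg h]
      by_cases h' : κ' ⊆ S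
      · rw [if_pos h']
        have e1 : S ∪ κ' = S := Finset.union_eq_left.2 h'
        have e2 : S ∪ (κ ∪ κ') = S ∪ κ := by
          rw [Finset.union_comm κ κ', ← Finset.union_assoc, e1]
        rw [e1, e2]
        have e3 : mass φ (S ∪ κ) / cap S * mass φ S = rat φ cap S * mass φ (S ∪ κ) := by
          unfold rat
          ring
        rw [e3]
        have : 0 ≤ mass φ (S ∪ κ) ^ 2 / cap S := by positivity
        linarith
      · rw [if_neg h']
        have e3 : mass φ (S ∪ κ) / cap S * mass φ (S ∪ κ') ≤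
            (mass φ (S ∪ κ) ^ 2 / cap S + mass φ (S ∪ κ') ^ 2 / cap S) / 2 := by
          rw [div_mul_eq_mul_div, ← add_div, div_div, div_le_div_iff₀ hc (by positivity)]
          nlinarith [sq_nonneg (mass φ (S ∪ κ) - mass φ (S ∪ κ')), hc]
        have := mul_nonneg r0 n4
        linarith
  rw [Finset.sum_add_distrib, ← Finset.sum_div, Finset.sum_add_distrib, ← cr_RR, ← cr_RR] at h2
  linarith

private theorem cr_abs {SS : Finset (Finset V)} {c Δ : Finset V → ℝ} {a b : ℝ}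
    (hc : ∀ S ∈ SS, 0 ≤ c S ∧ c S ≤ 2) (hΔ : ∀ S ∈ SS, 0 ≤ Δ S) (ha : 0 ≤ a)
    (hb : ∑ S ∈ SS, Δ S ≤ b) : |a - ∑ S ∈ SS, c S * Δ S| ≤ a + 2 * b := by
  have h1 : 0 ≤ ∑ S ∈ SS, c S * Δ S :=
    Finset.sum_nonneg fun S hS => mul_nonneg (hc S hS).1 (hΔ S hS)
  have h2 : ∑ S ∈ SS, c S * Δ S ≤ 2 * ∑ S ∈ SS, Δ S := by
    rw [Finset.mul_sum]
    exact Finset.sum_le_sum fun S hS => mul_le_mul_of_nonneg_right (hc S hS).2 (hΔ S hS)
  rw [abs_le]
  constructor <;> linarith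

private theorem cr_c (κ' S : Finset V) :
    (0 : ℝ) ≤ (if κ' ⊆ S then 1 else 2) ∧ (if κ' ⊆ S then (1 : ℝ) else 2) ≤ 2 := by
  split_ifs <;> norm_num

end CrossAux

section abstract

variable {V : Type} [Fintype V] {ι : Type}

theorem cross_claim {K μ : ℝ} {SS : Finset (Finset V)} {φ cap : Finset V → ℝ}
    (hG : Good K SS φ cap) (hK : 1 ≤ K) (hμ : 0 ≤ μ) (κ κ' : Finset V) :
    |DD SS (claim1 μ κ φ) (claim1 μ κ cap) κ' - DD SS φ cap κ'| ≤
      8 * (1 + μ) ^ 2 * K * (mass φ (κ ∪ κ') + RR SS φ cap κ + RR SS φ cap κ') := by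
  have hR := RR_nonneg (φ := φ) hG.pos (SS := SS) κ
  have hR' := RR_nonneg (φ := φ) hG.pos (SS := SS) κ'
  have hm := cr_nonneg hG.nonneg (κ ∪ κ')
  have h1 := load_sum hG (κ ∪ κ')
  have h2 := cr_sum hG κ κ'
  set Δ : Finset V → ℝ := fun S =>
    rat (claim1 μ κ φ) (claim1 μ κ cap) S * mass (claim1 μ κ φ) (S ∪ κ') -
      rat φ cap S * mass φ (S ∪ κ') with hΔdef
  have hΔ : ∀ S ∈ SS, 0 ≤ Δ S ∧ Δ S ≤ (μ + μ ^ 2) * (rat φ cap S * mass φ (S ∪ (κ ∪ κ'))) +
      μ * (if κ ⊆ S then 0 else mass φ (S ∪ κ) / cap S * mass φ (S ∪ κ')) := by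
    intro S _
    have hc := hG.pos S
    have n1 := cr_nonneg hG.nonneg S
    have n2 := cr_nonneg hG.nonneg (S ∪ κ)
    have n3 := cr_nonneg hG.nonneg (S ∪ κ')
    have n4 := cr_nonneg hG.nonneg (S ∪ (κ ∪ κ'))
    have r0 : 0 ≤ rat φ cap S := div_nonneg n1 hc.le
    have e0 : S ∪ κ' ∪ κ = S ∪ (κ ∪ κ') := by
      rw [Finset.union_assoc, Finset.union_comm κ' κ]
    by_cases h : κ ⊆ S
    · have e1 : S ∪ κ = S := Finset.union_eq_left.2 h
      have e2 : S ∪ (κ ∪ κ') = S ∪ κ' := by rw [← Finset.union_assoc, e1]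
      have e3 : rat (claim1 μ κ φ) (claim1 μ κ cap) S = rat φ cap S := by
        unfold rat
        rw [mass_claim1, e1]
        have : claim1 μ κ cap S = (1 + μ) * cap S := by
          unfold claim1
          rw [if_pos h]
        rw [this]
        have h5 : (1 + μ) ≠ 0 := by positivity
        have h6 : cap S ≠ 0 := hc.ne'
        field_simp
      have e4 : Δ S = μ * (rat φ cap S * mass φ (S ∪ κ')) := by
        rw [hΔdef]
        dsimp only
        rw [e3, mass_claim1, e0, e2]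
        ring
      rw [e4, if_pos h, e2]
      have := mul_nonneg r0 n3
      constructor
      · positivity
      · nlinarith [mul_nonneg (sq_nonneg μ) this]
    · have e3 : rat (claim1 μ κ φ) (claim1 μ κ cap) S =
          rat φ cap S + μ * (mass φ (S ∪ κ) / cap S) := by
        unfold rat
        rw [mass_claim1]
        have : claim1 μ κ cap S = cap S := by
          unfold claim1
          rw [if_neg h]
        rw [this]
        ring
      have u0 : 0 ≤ mass φ (S ∪ κ) / cap S := div_nonneg n2 hc.le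
      have u1 : mass φ (S ∪ κ) / cap S ≤ rat φ cap S := by
        unfold rat
        exact div_le_div_of_nonneg_right (mass_anti hG.nonneg Finset.subset_union_left) hc.le
      have e4 : Δ S = μ * (rat φ cap S * mass φ (S ∪ (κ ∪ κ'))) +
          μ * (mass φ (S ∪ κ) / cap S * mass φ (S ∪ κ')) +
          μ ^ 2 * (mass φ (S ∪ κ) / cap S * mass φ (S ∪ (κ ∪ κ'))) := by
        rw [hΔdef]
        dsimp only
        rw [e3, mass_claim1, e0]
        ring
      rw [e4, if_neg h]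
      have t1 := mul_nonneg r0 n4
      have t2 := mul_nonneg u0 n3
      have t3 := mul_nonneg u0 n4
      have t4 : mass φ (S ∪ κ) / cap S * mass φ (S ∪ (κ ∪ κ')) ≤
          rat φ cap S * mass φ (S ∪ (κ ∪ κ')) := mul_le_mul_of_nonneg_right u1 n4
      constructor
      · positivity
      · have := mul_le_mul_of_nonneg_left t4 (sq_nonneg μ)
        linarith
  have e5 : DD SS (claim1 μ κ φ) (claim1 μ κ cap) κ' - DD SS φ cap κ' =
      μ * mass φ (κ ∪ κ') - ∑ S ∈ SS, (if κ' ⊆ S then (1 : ℝ) else 2) * Δ S := by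
    unfold DD
    rw [mass_claim1, Finset.union_comm κ' κ]
    have : ∑ S ∈ SS, (if κ' ⊆ S then (1 : ℝ) else 2) * Δ S =
        ∑ S ∈ SS, (if κ' ⊆ S then (1 : ℝ) else 2) * rat (claim1 μ κ φ) (claim1 μ κ cap) S *
          mass (claim1 μ κ φ) (S ∪ κ') -
        ∑ S ∈ SS, (if κ' ⊆ S then (1 : ℝ) else 2) * rat φ cap S * mass φ (S ∪ κ') := by
      rw [← Finset.sum_sub_distrib]
      refine Finset.sum_congr rfl fun S _ => ?_
      rw [hΔdef]
      ring
    rw [this]
    ring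
  have h3 : ∑ S ∈ SS, Δ S ≤ (μ + μ ^ 2) * (K * mass φ (κ ∪ κ')) +
      μ * (K * mass φ (κ ∪ κ') + (RR SS φ cap κ + RR SS φ cap κ') / 2) := by
    refine (Finset.sum_le_sum fun S hS => (hΔ S hS).2).trans ?_
    rw [Finset.sum_add_distrib, ← Finset.mul_sum, ← Finset.mul_sum]
    exact add_le_add (mul_le_mul_of_nonneg_left h1 (by positivity))
      (mul_le_mul_of_nonneg_left h2 hμ)
  rw [e5]
  refine (cr_abs (fun S _ => cr_c κ' S) (fun S hS => (hΔ S hS).1) (by positivity) h3).trans ?_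
  have a1 : mass φ (κ ∪ κ') ≤ K * mass φ (κ ∪ κ') := by nlinarith
  have a2 : RR SS φ cap κ + RR SS φ cap κ' ≤ K * (RR SS φ cap κ + RR SS φ cap κ') := by
    nlinarith [add_nonneg hR hR']
  have a3 : 0 ≤ K * mass φ (κ ∪ κ') := by positivity
  have a4 : 0 ≤ K * (RR SS φ cap κ + RR SS φ cap κ') := by
    have := add_nonneg hR hR'
    positivity
  have a5 : μ * mass φ (κ ∪ κ') ≤ μ * (K * mass φ (κ ∪ κ')) := mul_le_mul_of_nonneg_left a1 hμ
  have a6 : μ * (RR SS φ cap κ + RR SS φ cap κ') ≤ μ * (K * (RR SS φ cap κ + RR SS φ cap κ')) :=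
    mul_le_mul_of_nonneg_left a2 hμ
  have a7 : 0 ≤ μ * (K * mass φ (κ ∪ κ')) := mul_nonneg hμ a3
  have a8 : 0 ≤ μ ^ 2 * (K * mass φ (κ ∪ κ')) := by positivity
  have a9 : 0 ≤ μ * (K * (RR SS φ cap κ + RR SS φ cap κ')) := mul_nonneg hμ a4
  have a10 : 0 ≤ μ ^ 2 * (K * (RR SS φ cap κ + RR SS φ cap κ')) := by positivity
  have e6 : 8 * (1 + μ) ^ 2 * K * (mass φ (κ ∪ κ') + RR SS φ cap κ + RR SS φ cap κ') =
      8 * (K * mass φ (κ ∪ κ')) + 16 * (μ * (K * mass φ (κ ∪ κ'))) +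
      8 * (μ ^ 2 * (K * mass φ (κ ∪ κ'))) + 8 * (K * (RR SS φ cap κ + RR SS φ cap κ')) +
      16 * (μ * (K * (RR SS φ cap κ + RR SS φ cap κ'))) +
      8 * (μ ^ 2 * (K * (RR SS φ cap κ + RR SS φ cap κ'))) := by ring
  rw [e6]
  nlinarith

theorem cross_kill {K : ℝ} {SS : Finset (Finset V)} {φ cap : Finset V → ℝ}
    (hG : Good K SS φ cap) (hK : 1 ≤ K) (κ κ' : Finset V) :
    |DD SS (kill1 κ φ) cap κ' - DD SS φ cap κ'| ≤
      8 * K * (mass φ (κ ∪ κ') + RR SS φ cap κ + RR SS φ cap κ') := by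
  have hR := RR_nonneg (φ := φ) hG.pos (SS := SS) κ
  have hR' := RR_nonneg (φ := φ) hG.pos (SS := SS) κ'
  have hm := cr_nonneg hG.nonneg (κ ∪ κ')
  have h1 := load_sum hG (κ ∪ κ')
  have h2 := cr_sum hG κ κ'
  set Δ : Finset V → ℝ := fun S => rat φ cap S * mass φ (S ∪ κ') -
    rat (kill1 κ φ) cap S * mass (kill1 κ φ) (S ∪ κ') with hΔdef
  have hΔ : ∀ S ∈ SS, 0 ≤ Δ S ∧ Δ S ≤ rat φ cap S * mass φ (S ∪ (κ ∪ κ')) +
      (if κ ⊆ S then 0 else mass φ (S ∪ κ) / cap S * mass φ (S ∪ κ')) := by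
    intro S _
    have hc := hG.pos S
    have n1 := cr_nonneg hG.nonneg S
    have n2 := cr_nonneg hG.nonneg (S ∪ κ)
    have n3 := cr_nonneg hG.nonneg (S ∪ κ')
    have n4 := cr_nonneg hG.nonneg (S ∪ (κ ∪ κ'))
    have r0 : 0 ≤ rat φ cap S := div_nonneg n1 hc.le
    have e0 : S ∪ κ' ∪ κ = S ∪ (κ ∪ κ') := by
      rw [Finset.union_assoc, Finset.union_comm κ' κ]
    by_cases h : κ ⊆ S
    · have e1 : S ∪ κ = S := Finset.union_eq_left.2 h
      have e2 : S ∪ (κ ∪ κ') = S ∪ κ' := by rw [← Finset.union_assoc, e1]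
      have e3 : rat (kill1 κ φ) cap S = 0 := by
        unfold rat
        rw [mass_kill1, e1, sub_self, zero_div]
      have e4 : Δ S = rat φ cap S * mass φ (S ∪ κ') := by
        rw [hΔdef]
        dsimp only
        rw [e3, zero_mul, sub_zero]
      rw [e4, if_pos h, e2, add_zero]
      exact ⟨mul_nonneg r0 n3, le_rfl⟩
    · have e3 : rat (kill1 κ φ) cap S = rat φ cap S - mass φ (S ∪ κ) / cap S := by
        unfold rat
        rw [mass_kill1, sub_div]
      have u0 : 0 ≤ mass φ (S ∪ κ) / cap S := div_nonneg n2 hc.le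
      have u1 : mass φ (S ∪ κ) / cap S ≤ rat φ cap S := by
        unfold rat
        exact div_le_div_of_nonneg_right (mass_anti hG.nonneg Finset.subset_union_left) hc.le
      have m1 : mass φ (S ∪ (κ ∪ κ')) ≤ mass φ (S ∪ κ') := by
        rw [← e0]
        exact mass_anti hG.nonneg Finset.subset_union_left
      have e4 : Δ S = rat φ cap S * mass φ (S ∪ (κ ∪ κ')) +
          mass φ (S ∪ κ) / cap S * mass φ (S ∪ κ') -
          mass φ (S ∪ κ) / cap S * mass φ (S ∪ (κ ∪ κ')) := by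
        rw [hΔdef]
        dsimp only
        rw [e3, mass_kill1, e0]
        ring
      rw [e4, if_neg h]
      have t1 := mul_nonneg r0 n4
      have t3 := mul_nonneg u0 n4
      have t5 := mul_le_mul_of_nonneg_left m1 u0
      constructor <;> linarith
  have e5 : DD SS (kill1 κ φ) cap κ' - DD SS φ cap κ' =
      -(mass φ (κ ∪ κ') - ∑ S ∈ SS, (if κ' ⊆ S then (1 : ℝ) else 2) * Δ S) := by
    unfold DD
    rw [mass_kill1, Finset.union_comm κ' κ]
    have : ∑ S ∈ SS, (if κ' ⊆ S then (1 : ℝ) else 2) * Δ S =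
        ∑ S ∈ SS, (if κ' ⊆ S then (1 : ℝ) else 2) * rat φ cap S * mass φ (S ∪ κ') -
        ∑ S ∈ SS, (if κ' ⊆ S then (1 : ℝ) else 2) * rat (kill1 κ φ) cap S *
          mass (kill1 κ φ) (S ∪ κ') := by
      rw [← Finset.sum_sub_distrib]
      refine Finset.sum_congr rfl fun S _ => ?_
      rw [hΔdef]
      ring
    rw [this]
    ring
  have h3 : ∑ S ∈ SS, Δ S ≤ K * mass φ (κ ∪ κ') +
      (K * mass φ (κ ∪ κ') + (RR SS φ cap κ + RR SS φ cap κ') / 2) := by
    refine (Finset.sum_le_sum fun S hS => (hΔ S hS).2).trans ?_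
    rw [Finset.sum_add_distrib]
    exact add_le_add h1 h2
  rw [e5, abs_neg]
  refine (cr_abs (fun S _ => cr_c κ' S) (fun S hS => (hΔ S hS).1) hm h3).trans ?_
  have a1 : mass φ (κ ∪ κ') ≤ K * mass φ (κ ∪ κ') := by nlinarith
  have a2 : RR SS φ cap κ + RR SS φ cap κ' ≤ K * (RR SS φ cap κ + RR SS φ cap κ') := by
    nlinarith [add_nonneg hR hR']
  have a4 : 0 ≤ K * (RR SS φ cap κ + RR SS φ cap κ') := by
    have := add_nonneg hR hR'
    positivity
  have a3 : 0 ≤ K * mass φ (κ ∪ κ') := by positivity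
  have e6 : 8 * K * (mass φ (κ ∪ κ') + RR SS φ cap κ + RR SS φ cap κ') =
      8 * (K * mass φ (κ ∪ κ')) + 8 * (K * (RR SS φ cap κ + RR SS φ cap κ')) := by ring
  rw [e6]
  linarith

end abstract

end Pool.Agent.Helper75.CG
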